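import Mathlib
import Pool.Agent.Results.MP_7e2af8_co.Classification
import Pool.Agent.Y594.CT.Coset

/-!
# MP_7e2af8_co: non-spanning sets of size `2p-2` and the sums that they miss

The definitions `CosetType` and `SmallType` are those of the starting file `Classification`.
-/

namespace Pool.Agent.Results.MP_7e2af8_co.MissingCoset

open Finset
open Pool.Agent.Results.MP_7e2af8_co.Classification

lemma missing {p : ℕ} (hp : p.Prime) (hp5 : 5 ≤ p) {A : Finset (ZMod p × ZMod p)}
    (hA : A.card = 2 * p - 2) (h : CosetType p A) :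
    ∃ (H : AddSubgroup (ZMod p × ZMod p)) (g : ZMod p × ZMod p), Nat.card H = p ∧ g ∉ H ∧
      (∀ x ∈ H, x ∈ A) ∧ ∀ x, x ∉ A.subsetSum ↔ x - g ∈ H := by
  obtain ⟨H, a, A₁, A₂, hH, ha, h1, h2, hAu⟩ := h
  have hm := Pool.Agent.Y594.CT.coset_missing hp (by omega) A hA H a A₁ A₂ hH ha h1 h2 hAu
  have hin : ∀ x ∈ H, x ∈ A := by
    intro x hx
    have : x ∈ (A : Set (ZMod p × ZMod p)) := by
      rw [hAu]
      left; left
      exact hx
    exact this
  refine ⟨H, (A₁.card + 1) • a, hH, ?_, hin, hm.2⟩
  intro hg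
  have h0 : (0 : ZMod p × ZMod p) - (A₁.card + 1) • a ∈ H := by
    rw [zero_sub]
    exact H.neg_mem hg
  have := (hm.2 0).2 h0
  exact this zero_mem_subsetSum

/-- For every prime `p ≥ 5` and every subset `A` of `Z_p × Z_p` of size `2p-2`:

(1) `A` does not span if and only if it is of coset type or `p = 5` and it is of small type;

(2) if `A` consists of a subgroup `H` of order `p`, a subset `A₁` of `a + H` and a subset `A₂` of
`-a + H`, `a ∉ H`, then `|A₁| + |A₂| = p - 2`, and the elements that are not subset sums of `A` are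
exactly those of the coset `(|A₁| + 1) a + H`;

(3) if `p ≥ 7`, then either `A` spans or the complement of its set of subset sums is one coset of a
subgroup of order `p` that is contained in `A`; in particular the number of subset sums is `p ^ 2`
or `p ^ 2 - p`. -/
theorem result (p : ℕ) (hp : p.Prime) (hp5 : 5 ≤ p) (A : Finset (ZMod p × ZMod p))
    (hA : A.card = 2 * p - 2) :
    ((∃ g : ZMod p × ZMod p, g ∉ A.subsetSum) ↔ CosetType p A ∨ (p = 5 ∧ SmallType p A)) ∧
    (∀ (H : AddSubgroup (ZMod p × ZMod p)) (a : ZMod p × ZMod p)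
      (A₁ A₂ : Finset (ZMod p × ZMod p)), Nat.card H = p → a ∉ H → (∀ x ∈ A₁, x - a ∈ H) →
      (∀ x ∈ A₂, x + a ∈ H) →
      (A : Set (ZMod p × ZMod p)) = (H : Set (ZMod p × ZMod p)) ∪ A₁ ∪ A₂ →
      A₁.card + A₂.card = p - 2 ∧ ∀ x, x ∉ A.subsetSum ↔ x - (A₁.card + 1) • a ∈ H) ∧
    (7 ≤ p → (∀ g, g ∈ A.subsetSum) ∨
      ((∃ (H : AddSubgroup (ZMod p × ZMod p)) (g : ZMod p × ZMod p), Nat.card H = p ∧ g ∉ H ∧
        (∀ x ∈ H, x ∈ A) ∧ ∀ x, x ∉ A.subsetSum ↔ x - g ∈ H) ∧
        A.subsetSum.card = p ^ 2 - p)) := by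
  classical
  refine ⟨Classification.result p hp hp5 A hA, ?_, ?_⟩
  · intro H a A₁ A₂ hH ha h1 h2 hAu
    exact Pool.Agent.Y594.CT.coset_missing hp (by omega) A hA H a A₁ A₂ hH ha h1 h2 hAu
  · intro hp7
    by_cases hs : ∀ g, g ∈ A.subsetSum
    · exact Or.inl hs
    · right
      push Not at hs
      have hc : CosetType p A := by
        rcases (Classification.result p hp hp5 A hA).1 hs with h | h
        · exact h
        · omega
      have hm := missing hp hp5 hA hc
      refine ⟨hm, ?_⟩
      obtain ⟨H, g, hH, -, -, hx⟩ := hm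
      have : NeZero p := ⟨hp.ne_zero⟩
      have hHF : (univ.filter (fun x : ZMod p × ZMod p => x ∈ H)).card = p := by
        have h5 : (univ.filter (fun x => x ∈ H)).card = Nat.card H := by
          rw [Nat.card_eq_fintype_card, Fintype.card_subtype]
        exact h5.trans hH
      have h6 : (A.subsetSum)ᶜ = (univ.filter (fun x : ZMod p × ZMod p => x ∈ H)).image
          (fun x => x + g) := by
        ext x
        rw [mem_compl, hx x, mem_image]
        constructor
        · intro h
          exact ⟨x - g, by simpa using h, sub_add_cancel x g⟩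
        · rintro ⟨y, hy, rfl⟩
          rw [add_sub_cancel_right]
          exact (mem_filter.1 hy).2
      have h7 : (A.subsetSum)ᶜ.card = p := by
        rw [h6, card_image_of_injective _ (add_left_injective g), hHF]
      have h8 := card_compl A.subsetSum
      rw [h7, Fintype.card_prod, ZMod.card] at h8
      have h9 : A.subsetSum.card ≤ p * p := by
        have := card_le_univ A.subsetSum
        rwa [Fintype.card_prod, ZMod.card] at this
      rw [pow_two]
      omega

end Pool.Agent.Results.MP_7e2af8_co.MissingCoset
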